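import Pool.Agent.Lib.MP_b02441_al.ZeroC

/-!
# MP_b02441_al: varieties defined by identities `w = 0` with doubled words `w`
-/

set_option autoImplicit false

namespace Pool.Agent.Lib.MP_b02441_al.Old.ZeroWords

open Pool.Agent.Lib.MP_b02441_al

/-- Let `Z` be a set of doubled words (every letter of `w` occurs in `w` at least twice, and `w`
is not a product of two words without common letters) and let `V` be the variety defined by
the identities `w = 0` (`w ∈ Z`). If some shortest word in `Z` is not locked, then the free
semigroups `F_1(V), F_2(V), …` are separated by identical inclusions. If all words in `Z` are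
locked, then `F_m(V)` and `F_n(V)` are inclusively equivalent for all `m, n ≥ 10`. In particular
the variety defined by one identity `w = 0` is separated if and only if `w` is not locked. -/
theorem result (Z : Set Word) (hZ : ∀ w ∈ Z, Doubled w) :
    ((∃ w ∈ Z, ¬ Locked w ∧ ∀ w' ∈ Z, (toL w).length ≤ (toL w').length) →
      Separated (withZeros ∅ Z)) ∧
    ((∀ w ∈ Z, Locked w) → ∀ m n : ℕ, 10 ≤ m → 10 ≤ n →
      InclEquiv (Fr (withZeros ∅ Z) m) (Fr (withZeros ∅ Z) n)) :=
  separated_zero_set hZ

end Pool.Agent.Lib.MP_b02441_al.Old.ZeroWords
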